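import Pool.Agent.KS6_3.ZL.H525R3.FFp.Sep

/-! Function fields of one variable over a perfect field: zeros and poles of separating elements. -/

set_option autoImplicit false
set_option linter.all false
set_option linter.overlappingInstances false

open Module IsDedekindDomain IntermediateField FF

namespace Pool.Agent.H525R3.FFp

variable {k K : Type*} [Field k] [Field K] [Algebra k K]

theorem zeros [h : IsFF k K] {f : K} (hf : Transcendental k f) (hsep : Algebra.IsSeparable k⟮f⟯ K) :
    ∃ S : Finset (Place k K), (∀ w, w ∈ S ↔ 0 < w.ord f) ∧ (∀ w ∈ S, 0 < w.deg) ∧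
      ∑ w ∈ S, (w.ord f).toNat * w.deg = finrank k⟮f⟯ K := by
  open scoped algebraAdjoinAdjoin in
  let A := Algebra.adjoin k {f}
  let e := Polynomial.algEquivOfTranscendental k f hf
  have hpid : IsPrincipalIdealRing A := IsPrincipalIdealRing.of_surjective e.toRingEquiv e.surjective
  have hded : IsDedekindDomain A := inferInstance
  have hfin := IsFF.finite hf
  let π : A := ⟨f, Algebra.self_mem_adjoin_singleton k f⟩
  have hf0 : f ≠ 0 := by
    rintro rfl
    exact hf (isAlgebraic_zero)
  have hπ : π ≠ 0 := by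
    intro h; exact hf0 (congrArg Subtype.val h)
  have heπ : e Polynomial.X = π := Polynomial.algEquivOfTranscendental_apply_X k f hf
  have hmax : (Ideal.span {π}).IsMaximal := by
    have h1 : (Ideal.span {(Polynomial.X : Polynomial k)}).IsMaximal := by
      have := PrincipalIdealRing.isMaximal_of_irreducible (Polynomial.irreducible_X (R := k))
      exact this
    have h2 : Ideal.span {π} = Ideal.map e.toRingEquiv.toRingHom (Ideal.span {(Polynomial.X : Polynomial k)}) := by
      rw [Ideal.map_span, Set.image_singleton]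
      congr 2
      exact heπ.symm
    rw [h2]
    exact Ideal.map_isMaximal_of_equiv e.toRingEquiv
  obtain ⟨S, hS1, hS2, hS3⟩ := fundamental (k := k) (A := A) (L := K) k⟮f⟯ π hπ hmax
  have hreg : ∀ w : Place k K, 0 < w.ord f → ∀ a : A, w.Reg (algebraMap A K a) := by
    rintro w hw ⟨a, ha⟩
    change w.Reg a
    induction ha using Algebra.adjoin_induction with
    | mem x hx =>
      rw [Set.mem_singleton_iff] at hx
      subst hx
      exact Or.inr hw.le
    | algebraMap r => exact w.reg_const r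
    | add x y _ _ hx hy => exact w.reg_add hx hy
    | mul x y _ _ hx hy => exact w.reg_mul hx hy
  have hS1' : ∀ w, w ∈ S ↔ 0 < w.ord f := by
    intro w
    rw [hS1]
    exact ⟨fun h => h.2, fun h => ⟨hreg w h, h⟩⟩
  have hdeg : ∀ w ∈ S, w.relf A = w.deg := by
    intro w hw
    have hw0 := (hS1' w).1 hw
    have h1 : ∀ a : A, ∃ c : k, w.red (algebraMap A K a) = algebraMap k w.RF c := by
      rintro ⟨a, ha⟩
      change ∃ c : k, w.red a = algebraMap k w.RF c
      suffices hh : w.Reg a ∧ ∃ c : k, w.red a = algebraMap k w.RF c from hh.2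
      induction ha using Algebra.adjoin_induction with
      | mem x hx =>
        rw [Set.mem_singleton_iff] at hx
        subst hx
        have hr : w.Reg x := Or.inr hw0.le
        exact ⟨hr, 0, by rw [map_zero, w.red_eq_zero_iff hr]; exact Or.inr hw0⟩
      | algebraMap r => exact ⟨w.reg_const r, r, rfl⟩
      | add x y _ _ hx hy =>
        obtain ⟨hx, c, hc⟩ := hx
        obtain ⟨hy, d, hd⟩ := hy
        exact ⟨w.reg_add hx hy, c + d, by rw [w.red_add hx hy, hc, hd, map_add]⟩
      | mul x y _ _ hx hy =>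
        obtain ⟨hx, c, hc⟩ := hx
        obtain ⟨hy, d, hd⟩ := hy
        exact ⟨w.reg_mul hx hy, c * d, by rw [w.red_mul hx hy, hc, hd, map_mul]⟩
    have h2 : Subfield.closure (Set.range fun a : A => w.red (algebraMap A K a)) = (algebraMap k w.RF).fieldRange := by
      apply le_antisymm
      · rw [Subfield.closure_le]
        rintro _ ⟨a, rfl⟩
        obtain ⟨c, hc⟩ := h1 a
        exact ⟨c, hc.symm⟩
      · rintro _ ⟨c, rfl⟩
        apply Subfield.subset_closure
        exact ⟨algebraMap k A c, rfl⟩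
    unfold Place.relf Place.deg
    rw [h2]
    let i : k ≃+* (algebraMap k w.RF).fieldRange :=
      RingEquiv.ofBijective (algebraMap k w.RF).rangeRestrictField
        ⟨(algebraMap k w.RF).rangeRestrictField.injective, by
          rintro ⟨_, ⟨c, rfl⟩⟩
          exact ⟨c, rfl⟩⟩
    exact (Algebra.finrank_eq_of_equiv_equiv i (RingEquiv.refl _) (by ext; rfl)).symm
  refine ⟨S, hS1', ?_, ?_⟩
  · intro w hw
    rw [← hdeg w hw]
    exact hS2 w hw
  · rw [← hS3]
    refine Finset.sum_congr rfl fun w hw => ?_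
    rw [hdeg w hw]
    rfl


theorem D_inv_ne {x : K} (hx : KaehlerDifferential.D k K x ≠ 0) :
    KaehlerDifferential.D k K x⁻¹ ≠ 0 := by
  have hx0 : x ≠ 0 := by
    rintro rfl; exact hx (map_zero _)
  rw [Derivation.leibniz_inv]
  exact smul_ne_zero (by simpa using hx0) hx

theorem D_mul_ne {f x : K} (hf0 : f ≠ 0) (hf : KaehlerDifferential.D k K f = 0)
    (hx : KaehlerDifferential.D k K x ≠ 0) : KaehlerDifferential.D k K (f * x) ≠ 0 := by
  rw [Derivation.leibniz, hf, smul_zero, add_zero]
  exact smul_ne_zero hf0 hx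

theorem poles [PerfectField k] [h : IsFF k K] {f : K} (hf : KaehlerDifferential.D k K f ≠ 0) :
    ∃ S : Finset (Place k K), (∀ w, w ∈ S ↔ w.ord f < 0) ∧
      ∑ w ∈ S, (- w.ord f).toNat * w.deg = finrank k⟮f⟯ K := by
  obtain ⟨h1, h2⟩ := sep_of_D_ne (D_inv_ne hf)
  obtain ⟨S, hS, -, hS3⟩ := zeros (k := k) (K := K) (f := f⁻¹) h1 h2
  refine ⟨S, ?_, ?_⟩
  · intro w
    rw [hS, w.ord_inv]; omega
  · rw [adjoin_inv] at hS3
    rw [← hS3]
    refine Finset.sum_congr rfl fun w _ => ?_
    rw [w.ord_inv]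

theorem deg_pos [PerfectField k] [IsFF k K] (P : Place k K) : 0 < P.deg := by
  obtain ⟨x0, hx0⟩ := exists_D_ne k K
  obtain ⟨x, hx, hxo⟩ : ∃ x : K, KaehlerDifferential.D k K x ≠ 0 ∧ 0 ≤ P.ord x := by
    by_cases h : 0 ≤ P.ord x0
    · exact ⟨x0, hx0, h⟩
    · refine ⟨x0⁻¹, D_inv_ne hx0, ?_⟩
      rw [P.ord_inv]; omega
  have hxne : x ≠ 0 := by
    rintro rfl; exact hx (map_zero _)
  obtain ⟨t, ht0, ht⟩ := P.surj
  obtain ⟨s, hs, hso⟩ : ∃ s : K, KaehlerDifferential.D k K s ≠ 0 ∧ 0 < P.ord s := by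
    by_cases h : KaehlerDifferential.D k K t = 0
    · refine ⟨t * x, D_mul_ne ht0 h hx, ?_⟩
      rw [P.ord_mul ht0 hxne]; omega
    · exact ⟨t, h, by omega⟩
  obtain ⟨h1, h2⟩ := sep_of_D_ne hs
  obtain ⟨S, hS, hS2, -⟩ := zeros h1 h2
  exact hS2 P ((hS P).2 hso)

instance [PerfectField k] [IsFF k K] (P : Place k K) : FiniteDimensional k P.RF :=
  FiniteDimensional.of_finrank_pos (deg_pos P)

end Pool.Agent.H525R3.FFp
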