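import Pool.Agent.KS6_3.ZL.H525R3.FFp.Riemann
import Pool.Agent.KS6_3.ZL.H707R3.PlacesFin

/-! The bridge between the two notions of places: valuation rings and normalised valuations. -/

set_option autoImplicit false
set_option linter.all false

open Module IsDedekindDomain IntermediateField

namespace Pool.Agent.H525R3.FFp

variable {k F : Type*} [Field k] [Field F] [Algebra k F]

theorem isFF (h : H707R3.IsCurveFunctionField k F) : FF.IsFF k F :=
  ⟨h.essFiniteType, h.trdeg_eq_one⟩

/-- The valuation ring of a normalised valuation, as a place. -/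
def toVal (P : FF.Place k F) : H707R3.Place k F where
  ring := P.O
  const_mem a := P.reg_const a
  ne_top := by
    intro h
    obtain ⟨t, ht0, ht⟩ := P.surj
    have h1 : t⁻¹ ∈ P.O := by rw [h]; trivial
    have h2 := (P.reg_iff (inv_ne_zero ht0)).1 h1
    rw [P.ord_inv] at h2
    omega

theorem toVal_ring (P : FF.Place k F) : (toVal P).ring = P.O := rfl

theorem toVal_injective : Function.Injective (toVal (k := k) (F := F)) := by
  intro P Q h
  have h1 : P.O = Q.O := congrArg H707R3.Place.ring h
  apply FF.Place.eq_of_le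
  intro f hf0 hf
  have h2 : f ∈ P.O := (P.reg_iff hf0).2 hf
  rw [h1] at h2
  exact (Q.reg_iff hf0).1 h2

theorem toVal_surjective [PerfectField k] (h : H707R3.IsCurveFunctionField k F) :
    Function.Surjective (toVal (k := k) (F := F)) := by
  intro v
  obtain ⟨D, hD⟩ : ∃ D : H707R3.DedModel k F, ∀ b ∈ D.B, b ∈ v.ring := by
    obtain ⟨t, D, D', _, hD⟩ := H707R3.exists_two_models h
    rcases hD v with h1 | h1
    · exact ⟨D, h1⟩
    · exact ⟨D', h1⟩
  have := D.ded
  have := D.frac
  refine ⟨FF.placeOf (k := k) (L := F) (D.hos v hD), ?_⟩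
  apply H707R3.Place.ext_ring
  ext x
  rw [toVal_ring, D.mem_ring_iff v hD x]
  by_cases hx : x = 0
  · subst hx
    simp
  · rw [← FF.placeOf_nonneg (k := k) (L := F) (D.hos v hD) hx]
    exact FF.Place.reg_iff _ hx

theorem toVal_deg (P : FF.Place k F) : (toVal P).deg = P.deg := by
  unfold H707R3.Place.deg FF.Place.deg
  letI : Algebra k (toVal P).κ := (toVal P).resHom.toAlgebra
  refine Algebra.finrank_eq_of_equiv_equiv (RingEquiv.refl k)
    (RingEquiv.refl (IsLocalRing.ResidueField P.O) : (toVal P).κ ≃+* P.RF) ?_
  ext c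
  exact P.red_of_reg (P.reg_const c)

/-- The bridge. -/
noncomputable def bridge [PerfectField k] (h : H707R3.IsCurveFunctionField k F) :
    H707R3.Place k F ≃ FF.Place k F :=
  (Equiv.ofBijective toVal ⟨toVal_injective, toVal_surjective h⟩).symm

theorem toVal_bridge [PerfectField k] (h : H707R3.IsCurveFunctionField k F)
    (v : H707R3.Place k F) : toVal (bridge h v) = v :=
  (Equiv.ofBijective toVal ⟨toVal_injective, toVal_surjective h⟩).apply_symm_apply v

theorem bridge_toVal [PerfectField k] (h : H707R3.IsCurveFunctionField k F)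
    (P : FF.Place k F) : bridge h (toVal P) = P :=
  (Equiv.ofBijective toVal ⟨toVal_injective, toVal_surjective h⟩).symm_apply_apply P

theorem bridge_O [PerfectField k] (h : H707R3.IsCurveFunctionField k F)
    (v : H707R3.Place k F) : (bridge h v).O = v.ring :=
  congrArg H707R3.Place.ring (toVal_bridge h v)

theorem bridge_deg [PerfectField k] (h : H707R3.IsCurveFunctionField k F)
    (v : H707R3.Place k F) : (bridge h v).deg = v.deg := by
  rw [← toVal_deg, toVal_bridge]

theorem bridge_nonneg [PerfectField k] (h : H707R3.IsCurveFunctionField k F)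
    (v : H707R3.Place k F) {f : F} (hf : f ≠ 0) : 0 ≤ (bridge h v).ord f ↔ f ∈ v.ring := by
  rw [← bridge_O h v]
  exact ((bridge h v).reg_iff hf).symm

theorem bridge_pos [PerfectField k] (h : H707R3.IsCurveFunctionField k F)
    (v : H707R3.Place k F) {f : F} (hf : f ≠ 0) :
    0 < (bridge h v).ord f ↔ v.ring.valuation f < 1 := by
  have h1 := bridge_nonneg h v (inv_ne_zero hf)
  rw [(bridge h v).ord_inv, ← ValuationSubring.valuation_le_one_iff, map_inv₀] at h1
  have h2 : v.ring.valuation f ≠ 0 := (Valuation.ne_zero_iff _).2 hf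
  rw [inv_le_one₀ (zero_lt_iff.2 h2)] at h1
  rw [← not_le, ← not_le (b := v.ring.valuation f), ← h1]
  omega

/-- The residue field isomorphism is the identity: cardinalities agree. -/
theorem card_RF (P : FF.Place k F) : Nat.card (toVal P).κ = Nat.card P.RF := rfl

theorem bridge_card [PerfectField k] (h : H707R3.IsCurveFunctionField k F)
    (v : H707R3.Place k F) : Nat.card (bridge h v).RF = Nat.card v.κ := by
  rw [← card_RF, toVal_bridge]

theorem bridge_card_pow [Finite k] (h : H707R3.IsCurveFunctionField k F)
    (v : H707R3.Place k F) :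
    Nat.card (bridge h v).RF = Nat.card k ^ (bridge h v).deg ∧ Finite (bridge h v).RF := by
  have h1 := H707R3.card_residue' h v
  refine ⟨?_, ?_⟩
  · rw [bridge_card, bridge_deg]
    exact h1.2.1
  · have h2 := h1.1
    rw [← toVal_bridge h v] at h2
    exact h2

end Pool.Agent.H525R3.FFp
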